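import Pool.Agent.H23.PL.Targets
import Pool.Agent.H12.PF.MR

/-!
# Mertens products
-/

set_option autoImplicit false

open Finset

namespace Pool.Agent.H57.PL

open Pool.Agent.H23.PL

theorem term_le (p : ℕ) (hp : 2 ≤ p) :
    (1 - 1 / (p : ℝ))⁻¹ ≤ Real.exp (1 / p + (1 / ((p : ℝ) - 1) - 1 / p)) := by
  have h2 : (2 : ℝ) ≤ p := by exact_mod_cast hp
  have h1 : (0 : ℝ) < (p : ℝ) - 1 := by linarith
  have h0 : (0 : ℝ) < p := by linarith
  have e : (1 - 1 / (p : ℝ))⁻¹ = 1 / ((p : ℝ) - 1) + 1 := by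
    have : (1 - 1 / (p : ℝ)) = ((p : ℝ) - 1) / p := by field_simp
    rw [this, inv_div]
    field_simp
    ring
  rw [e]
  have := Real.add_one_le_exp (1 / ((p : ℝ) - 1))
  calc 1 / ((p : ℝ) - 1) + 1 ≤ Real.exp (1 / ((p : ℝ) - 1)) := this
    _ = _ := by congr 1; ring

theorem tele (u v : ℕ) (huv : u ≤ v) :
    ∑ q ∈ Ioc u v, (1 / ((q : ℝ) - 1) - 1 / q) = 1 / (u : ℝ) - 1 / v := by
  induction v, huv using Nat.le_induction with
  | base => simp
  | succ v hv ih =>
    rw [Finset.sum_Ioc_succ_top hv, ih]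
    push_cast
    ring

theorem ZB_le (u v : ℕ) (hu : 2 ≤ u) (huv : u ≤ v) :
    ZB ((Ioc u v).filter Nat.Prime) ≤
      Real.exp (∑ p ∈ (Ioc u v).filter Nat.Prime, (1 : ℝ) / p + 1) := by
  unfold ZB
  have h1 : ∏ p ∈ (Ioc u v).filter Nat.Prime, (1 - 1 / (p : ℝ))⁻¹ ≤
      ∏ p ∈ (Ioc u v).filter Nat.Prime,
        Real.exp (1 / p + (1 / ((p : ℝ) - 1) - 1 / p)) := by
    refine Finset.prod_le_prod (fun p hp => ?_) (fun p hp => ?_)
    · have h := (mem_filter.1 hp).2.two_le
      have h2 : (2 : ℝ) ≤ p := by exact_mod_cast h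
      have : 1 / (p : ℝ) ≤ 1 / 2 := one_div_le_one_div_of_le (by norm_num) h2
      exact inv_nonneg.2 (by linarith)
    · exact term_le p (mem_filter.1 hp).2.two_le
  refine h1.trans ?_
  rw [← Real.exp_sum]
  apply Real.exp_le_exp.2
  rw [Finset.sum_add_distrib]
  have h2 : ∑ p ∈ (Ioc u v).filter Nat.Prime, (1 / ((p : ℝ) - 1) - 1 / p) ≤
      ∑ q ∈ Ioc u v, (1 / ((q : ℝ) - 1) - 1 / q) := by
    refine Finset.sum_le_sum_of_subset_of_nonneg (filter_subset _ _) fun q hq _ => ?_
    have h3 : 2 ≤ q := by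
      have := (mem_Ioc.1 hq).1
      omega
    have h4 : (2 : ℝ) ≤ q := by exact_mod_cast h3
    have := one_div_le_one_div_of_le (by linarith : (0 : ℝ) < (q : ℝ) - 1)
      (by linarith : (q : ℝ) - 1 ≤ q)
    linarith
  rw [tele u v huv] at h2
  have h5 : (1 : ℝ) / u ≤ 1 := by
    have : (1 : ℝ) ≤ u := by exact_mod_cast (by omega : 1 ≤ u)
    rw [div_le_one (by linarith)]
    exact this
  have h6 : (0 : ℝ) ≤ 1 / (v : ℝ) := by positivity
  linarith

theorem pf_MR2 : T_MR2 := by
  obtain ⟨C0, hC0⟩ := Pool.Agent.H12.PF.mr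
  set D : ℝ := Real.exp (C0 + 1) with hD
  have hD0 : 0 < D := Real.exp_pos _
  have hl2 : 0 < Real.log 2 := Real.log_pos (by norm_num)
  have key : ∀ z y : ℝ, 2 ≤ z → z ≤ y → ZB (PR z y) ≤ 2 * D * (Real.log y / Real.log z) := by
    intro z y hz hzy
    set u : ℕ := ⌊z⌋₊ with hu
    set v : ℕ := ⌊y⌋₊ with hv
    have hu2 : 2 ≤ u := Nat.le_floor (by exact_mod_cast hz)
    have huv : u ≤ v := Nat.floor_le_floor hzy
    have h1 := ZB_le u v hu2 huv
    have h2 := hC0 u v hu2 huv
    have hu2' : (2 : ℝ) ≤ u := by exact_mod_cast hu2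
    have huv' : (u : ℝ) ≤ v := by exact_mod_cast huv
    have hlu : 0 < Real.log u := Real.log_pos (by linarith)
    have hlv : 0 < Real.log v := Real.log_pos (by linarith)
    have h3 : ZB ((Ioc u v).filter Nat.Prime) ≤ D * (Real.log v / Real.log u) := by
      refine h1.trans ?_
      calc Real.exp (∑ p ∈ (Ioc u v).filter Nat.Prime, (1 : ℝ) / p + 1)
          ≤ Real.exp (Real.log (Real.log v / Real.log u) + (C0 + 1)) :=
            Real.exp_le_exp.2 (by linarith)
        _ = D * (Real.log v / Real.log u) := by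
            rw [Real.exp_add, Real.exp_log (by positivity)]
            ring
    have hz0 : 0 < z := by linarith
    have hlz : 0 < Real.log z := Real.log_pos (by linarith)
    have hvy : Real.log v ≤ Real.log y :=
      Real.log_le_log (by linarith) (Nat.floor_le (by linarith))
    have hzu : Real.log z ≤ 2 * Real.log u := by
      have h4 : z ≤ (u : ℝ) ^ 2 := by
        have := Nat.lt_floor_add_one z
        rw [← hu] at this
        nlinarith
      calc Real.log z ≤ Real.log ((u : ℝ) ^ 2) := Real.log_le_log hz0 h4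
        _ = 2 * Real.log u := by rw [Real.log_pow]; norm_num
    have h5 : Real.log v / Real.log u ≤ 2 * (Real.log y / Real.log z) := by
      rw [div_le_iff₀ hlu]
      have h6 : 1 ≤ 2 * Real.log u / Real.log z := by
        rw [le_div_iff₀ hlz]; linarith
      have hly : 0 ≤ Real.log y := hlv.le.trans hvy
      calc Real.log v ≤ Real.log y := hvy
        _ ≤ Real.log y * (2 * Real.log u / Real.log z) := le_mul_of_one_le_right hly h6
        _ = 2 * (Real.log y / Real.log z) * Real.log u := by ring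
    have : PR z y = (Ioc u v).filter Nat.Prime := rfl
    rw [this]
    refine h3.trans ?_
    calc D * (Real.log v / Real.log u) ≤ D * (2 * (Real.log y / Real.log z)) :=
          mul_le_mul_of_nonneg_left h5 hD0.le
      _ = _ := by ring
  refine ⟨2 * D + 4 * D / Real.log 2, by positivity, ?_, ?_⟩
  · intro y hy
    have hly : 0 < Real.log y := Real.log_pos (by linarith)
    have e : PR 0 y = insert 2 (PR 2 y) := by
      ext p
      unfold PR
      simp only [mem_filter, mem_Ioc, mem_insert, Nat.floor_zero, Nat.floor_ofNat]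
      have h2 : 2 ≤ ⌊y⌋₊ := Nat.le_floor (by exact_mod_cast hy)
      constructor
      · rintro ⟨⟨-, h⟩, hp⟩
        have := hp.two_le
        rcases Nat.eq_or_lt_of_le this with h3 | h3
        · exact Or.inl h3.symm
        · exact Or.inr ⟨⟨h3, h⟩, hp⟩
      · rintro (rfl | ⟨⟨h3, h4⟩, hp⟩)
        · exact ⟨⟨by norm_num, h2⟩, Nat.prime_two⟩
        · exact ⟨⟨by omega, h4⟩, hp⟩
    have hn : 2 ∉ PR 2 y := by
      unfold PR
      simp
    have h1 := key 2 y le_rfl hy
    unfold ZB at h1 ⊢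
    rw [e, Finset.prod_insert hn]
    have h2 : ((1 : ℝ) - 1 / ((2 : ℕ) : ℝ))⁻¹ = 2 := by norm_num
    rw [h2]
    have h3 : 2 * (2 * D * (Real.log y / Real.log 2)) = 4 * D / Real.log 2 * Real.log y := by
      ring
    have h4 : 0 ≤ 2 * D * Real.log y := by positivity
    calc 2 * ∏ p ∈ PR 2 y, (1 - 1 / (p : ℝ))⁻¹ ≤ 2 * (2 * D * (Real.log y / Real.log 2)) :=
          mul_le_mul_of_nonneg_left h1 (by norm_num)
      _ ≤ (2 * D + 4 * D / Real.log 2) * Real.log y := by rw [h3, add_mul]; linarith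
  · intro z y hz hzy
    have h1 := key z y hz hzy
    have hlz : 0 < Real.log z := Real.log_pos (by linarith)
    have hly : 0 < Real.log y := Real.log_pos (by linarith)
    have h4 : 0 ≤ 4 * D / Real.log 2 * (Real.log y / Real.log z) := by positivity
    rw [add_mul]
    linarith

end Pool.Agent.H57.PL
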