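import Pool.Agent.H23.PL.Targets

/-!
# Few numbers have no prime factor in `(z, y]`
-/

set_option autoImplicit false

open Finset

namespace Pool.Agent.H57.PL

open Pool.Agent.H23.PL

open Classical in
theorem pf_NOF (hLGT : T_LGT) (hMR2 : T_MR2) (hIND : T_IND) : T_NOF := by
  obtain ⟨C, hC, hL⟩ := hLGT
  obtain ⟨D, hD, hM1, hM2⟩ := hMR2
  refine ⟨C + C * D ^ 2, by positivity, fun x z y hz hzy hyx => ?_⟩
  have hy2 : 2 ≤ y := hz.trans hzy
  have hx2 : (2 : ℝ) ≤ x := hy2.trans hyx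
  have hx1 : 1 ≤ x := by
    have : (1 : ℝ) ≤ x := by linarith
    exact_mod_cast this
  set A : Set ℕ := {r | ∀ p ∈ PR z y, ¬ p ∣ r} with hA
  have h1 := hL A x y (by linarith) hx1 (by
    intro m p _ hp hyp
    constructor
    · intro h q hq hqm
      exact h q hq (hqm.mul_right p)
    · intro h q hq hqm
      have hqp := (mem_filter.1 hq).2
      rcases (Nat.Prime.dvd_mul hqp).1 hqm with h2 | h2
      · exact h q hq h2
      · have h3 := (Nat.prime_dvd_prime_iff_eq hqp hp).1 h2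
        have h4 := (mem_Ioc.1 (mem_filter.1 hq).1).2
        have h5 : (q : ℝ) ≤ y := (Nat.le_floor_iff (by linarith)).1 h4
        rw [h3] at h5
        linarith)
  have h2 := hIND 1 x (fun _ => PR z y) (fun _ => {1}) (fun _ => 1) (by
    intro j p hp
    refine ⟨(mem_filter.1 hp).2, ?_⟩
    have h4 := (mem_Ioc.1 (mem_filter.1 hp).1).2
    have h5 : (p : ℝ) ≤ y := (Nat.le_floor_iff (by linarith)).1 h4
    exact_mod_cast h5.trans hyx) (by
    intro i j hij
    exact absurd (Subsingleton.elim i j) hij) (by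
    intro j S hS
    have h6 : S ⊆ {1} := fun a ha => by
      have := (hS a ha).2
      simpa using this
    calc ∑ a ∈ S, 1 / (a : ℝ) ≤ ∑ a ∈ ({1} : Finset ℕ), 1 / (a : ℝ) :=
          Finset.sum_le_sum_of_subset_of_nonneg h6 fun a _ _ => by positivity
      _ = 1 := by simp)
  have h3 := le_trans (Finset.sum_le_sum_of_subset_of_nonneg
    (s := (Icc 1 x).filter (· ∈ A)) (f := fun m : ℕ => 1 / (m : ℝ)) (by
    intro m hm
    simp only [Finset.mem_filter] at hm ⊢
    refine ⟨hm.1, fun _ => ?_⟩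
    rw [Set.mem_singleton_iff]
    unfold pt
    refine Finset.prod_eq_one fun p hp => ?_
    have : ¬ p ∣ m := hm.2 p hp
    rw [Nat.factorization_eq_zero_of_not_dvd this, pow_zero])
    fun m _ _ => by positivity) h2
  have hpr : (∏ j : Fin 1, (fun _ => (1 : ℝ)) j) = 1 := by simp
  have hun : (univ : Finset (Fin 1)).biUnion (fun _ => PR z y) = PR z y := by
    ext p
    simp
  have hsp : PR 0 (x : ℝ) \ PR z y = PR 0 z ∪ PR y x := by
    ext p
    unfold PR
    simp only [mem_sdiff, mem_filter, mem_Ioc, mem_union, Nat.floor_zero]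
    have h7 : ⌊z⌋₊ ≤ ⌊y⌋₊ := Nat.floor_le_floor hzy
    have h8 : ⌊y⌋₊ ≤ ⌊(x : ℝ)⌋₊ := Nat.floor_le_floor hyx
    constructor
    · rintro ⟨⟨⟨h9, h10⟩, hp⟩, h11⟩
      by_cases h12 : p ≤ ⌊z⌋₊
      · exact Or.inl ⟨⟨h9, h12⟩, hp⟩
      · refine Or.inr ⟨⟨?_, h10⟩, hp⟩
        by_contra h13
        exact h11 ⟨⟨by omega, by omega⟩, hp⟩
    · rintro (⟨⟨h9, h10⟩, hp⟩ | ⟨⟨h9, h10⟩, hp⟩)
      · exact ⟨⟨⟨h9, by omega⟩, hp⟩, fun h => by have := h.1.1; omega⟩
      · exact ⟨⟨⟨hp.pos, by omega⟩, hp⟩, fun h => by have := h.1.2; omega⟩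
  have hdj : Disjoint (PR 0 z) (PR y (x : ℝ)) := by
    rw [Finset.disjoint_left]
    intro p hp hp'
    have h9 := (mem_Ioc.1 (mem_filter.1 hp).1).2
    have h10 := (mem_Ioc.1 (mem_filter.1 hp').1).1
    have h7 : ⌊z⌋₊ ≤ ⌊y⌋₊ := Nat.floor_le_floor hzy
    omega
  have hZ : ZB (PR 0 (x : ℝ) \ PR z y) = ZB (PR 0 z) * ZB (PR y x) := by
    rw [hsp]
    unfold ZB
    rw [Finset.prod_union hdj]
  have hZ0 : ∀ u v : ℝ, 0 ≤ ZB (PR u v) := by
    intro u v
    unfold ZB
    refine Finset.prod_nonneg fun p hp => ?_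
    have h := (mem_filter.1 hp).2.two_le
    have h2 : (2 : ℝ) ≤ p := by exact_mod_cast h
    have : 1 / (p : ℝ) ≤ 1 / 2 := one_div_le_one_div_of_le (by norm_num) h2
    exact inv_nonneg.2 (by linarith)
  have hlz : 0 < Real.log z := Real.log_pos (by linarith)
  have hly : 0 < Real.log y := Real.log_pos (by linarith)
  have hlx : 0 < Real.log x := Real.log_pos (by linarith)
  have h4 : ∑ m ∈ (Icc 1 x).filter (· ∈ A), 1 / (m : ℝ) ≤
      D ^ 2 * (Real.log z * Real.log x / Real.log y) := by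
    refine h3.trans ?_
    rw [hpr, one_mul, hun, hZ]
    calc ZB (PR 0 z) * ZB (PR y x)
        ≤ (D * Real.log z) * (D * (Real.log x / Real.log y)) :=
          mul_le_mul (hM1 z hz) (hM2 y x hy2 hyx) (hZ0 _ _) (by positivity)
      _ = _ := by ring
  have hx0 : (0 : ℝ) ≤ x := by linarith
  refine le_trans (le_of_eq ?_) (h1.trans (le_trans (le_of_eq ?_)
    (b := C * x * (1 + Real.log y) + C * x * ∑ m ∈ (Icc 1 x).filter (· ∈ A), 1 / (m : ℝ)) ?_))
  · congr!
  · congr!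
  have h5 : C * x * ∑ m ∈ (Icc 1 x).filter (· ∈ A), 1 / (m : ℝ) ≤
      C * x * (D ^ 2 * (Real.log z * Real.log x / Real.log y)) :=
    mul_le_mul_of_nonneg_left h4 (by positivity)
  have h6 : 0 ≤ C * D ^ 2 * x * (1 + Real.log y) := by positivity
  have h7 : 0 ≤ C * x * (Real.log z * Real.log x / Real.log y) := by positivity
  calc C * x * (1 + Real.log y) + C * x * ∑ m ∈ (Icc 1 x).filter (· ∈ A), 1 / (m : ℝ)
      ≤ C * x * (1 + Real.log y) +
        C * x * (D ^ 2 * (Real.log z * Real.log x / Real.log y)) := by linarith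
    _ ≤ (C + C * D ^ 2) * x * (1 + Real.log y + Real.log z * Real.log x / Real.log y) := by
        nlinarith

end Pool.Agent.H57.PL
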