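import Pool.Agent.H23.PL.Targets

/-!
# Few numbers have a large smooth part
-/

set_option autoImplicit false

open Finset

namespace Pool.Agent.H57.PL

open Pool.Agent.H23.PL

theorem sum_fact (p x : ℕ) :
    ∑ r ∈ Icc 1 x, r.factorization p = (x.factorial).factorization p := by
  induction x with
  | zero => simp
  | succ x ih =>
    rw [Finset.sum_Icc_succ_top (by omega), ih, Nat.factorial_succ,
      Nat.factorization_mul (by omega) (Nat.factorial_ne_zero x)]
    simp only [Finsupp.coe_add, Pi.add_apply]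
    ring

theorem fact_le (p x : ℕ) (hp : p.Prime) :
    (((x.factorial).factorization p : ℕ) : ℝ) * ((p : ℝ) - 1) ≤ x := by
  have := Fact.mk hp
  have h := sub_one_mul_padicValNat_factorial (p := p) x
  rw [Nat.factorization_def _ hp]
  have h1 : (p - 1) * padicValNat p x.factorial ≤ x := by
    rw [h]; exact Nat.sub_le _ _
  have h2 : (((p - 1 : ℕ) : ℝ)) = (p : ℝ) - 1 := by
    have := hp.one_lt
    push_cast [Nat.cast_sub (by omega : 1 ≤ p)]
    ring
  have h3 : ((((p - 1) * padicValNat p x.factorial : ℕ)) : ℝ) ≤ x := by exact_mod_cast h1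
  rw [Nat.cast_mul, h2] at h3
  linarith

open Classical in
theorem pf_SMO (hMR1 : T_MR1) : T_SMO := by
  obtain ⟨C, hC, hM⟩ := hMR1
  refine ⟨C, hC, fun x y Y hy hY => ?_⟩
  have hlY : 0 < Real.log Y := Real.log_pos hY
  have hpt : ∀ r : ℕ, 1 ≤ pt (PR 0 y) r := by
    intro r
    unfold pt
    refine Nat.one_le_iff_ne_zero.2 (Finset.prod_ne_zero_iff.2 fun p hp => ?_)
    exact pow_ne_zero _ (mem_filter.1 hp).2.ne_zero
  have h1 : (((Icc 1 x).filter fun r => Y < (pt (PR 0 y) r : ℝ)).card : ℝ) * Real.log Y ≤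
      ∑ r ∈ (Icc 1 x).filter (fun r => Y < (pt (PR 0 y) r : ℝ)),
        Real.log (pt (PR 0 y) r) := by
    rw [← nsmul_eq_mul]
    refine Finset.card_nsmul_le_sum _ _ _ fun r hr => ?_
    exact Real.log_le_log (by linarith) (mem_filter.1 hr).2.le
  have h2 : ∑ r ∈ (Icc 1 x).filter (fun r => Y < (pt (PR 0 y) r : ℝ)),
      Real.log (pt (PR 0 y) r) ≤ ∑ r ∈ Icc 1 x, Real.log (pt (PR 0 y) r) := by
    refine Finset.sum_le_sum_of_subset_of_nonneg (filter_subset _ _) fun r _ _ => ?_
    exact Real.log_nonneg (by exact_mod_cast hpt r)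
  have h3 : ∀ r : ℕ, Real.log (pt (PR 0 y) r) =
      ∑ p ∈ PR 0 y, (r.factorization p : ℝ) * Real.log p := by
    intro r
    unfold pt
    push_cast
    rw [Real.log_prod (fun p hp => ?_)]
    · refine Finset.sum_congr rfl fun p _ => ?_
      rw [Real.log_pow]
    · exact pow_ne_zero _ (by exact_mod_cast (mem_filter.1 hp).2.ne_zero)
  have h4 : ∑ r ∈ Icc 1 x, Real.log (pt (PR 0 y) r) =
      ∑ p ∈ PR 0 y, ((x.factorial).factorization p : ℝ) * Real.log p := by
    simp_rw [h3]
    rw [Finset.sum_comm]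
    refine Finset.sum_congr rfl fun p _ => ?_
    rw [← Finset.sum_mul, ← sum_fact p x]
    push_cast
    rfl
  have h5 : ∑ p ∈ PR 0 y, ((x.factorial).factorization p : ℝ) * Real.log p ≤
      ∑ p ∈ PR 0 y, x * (Real.log p / ((p : ℝ) - 1)) := by
    refine Finset.sum_le_sum fun p hp => ?_
    have hpp := (mem_filter.1 hp).2
    have h6 := fact_le p x hpp
    have h7 : (2 : ℝ) ≤ p := by exact_mod_cast hpp.two_le
    have h8 : 0 ≤ Real.log p := Real.log_nonneg (by linarith)
    have h9 : (0 : ℝ) < (p : ℝ) - 1 := by linarith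
    rw [mul_div_assoc', le_div_iff₀ h9]
    calc ((x.factorial).factorization p : ℝ) * Real.log p * ((p : ℝ) - 1)
        = (((x.factorial).factorization p : ℕ) : ℝ) * ((p : ℝ) - 1) * Real.log p := by ring
      _ ≤ x * Real.log p := mul_le_mul_of_nonneg_right h6 h8
  rw [← Finset.mul_sum] at h5
  have h10 := hM y hy
  calc (((Icc 1 x).filter fun r => Y < (pt (PR 0 y) r : ℝ)).card : ℝ) * Real.log Y
      ≤ ∑ r ∈ Icc 1 x, Real.log (pt (PR 0 y) r) := h1.trans h2
    _ ≤ x * ∑ p ∈ PR 0 y, Real.log p / ((p : ℝ) - 1) := by rw [h4]; exact h5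
    _ ≤ x * (Real.log y + C) := mul_le_mul_of_nonneg_left h10 (Nat.cast_nonneg x)

end Pool.Agent.H57.PL
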